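import Pool.Agent.N869.GK.Z.C17
import Pool.Agent.N869.GK.Z.Some

/-!
# Many twists of the curve of conductor 17 at the same time, for almost every single modulus

`E_d` is the quadratic twist by `d` of `E : y² = x (x + 1) (x - 16)`, a curve of conductor `17` without
complex multiplication. Fix any finite set of squarefree integers `c_1, …, c_m`, positive or negative, such
that the root numbers of the `E_{c_i}` are `+1`. For a squarefree number `f` prime to `34 c_1 ⋯ c_m` we
consider all the `n`-tuples `(d_1, …, d_n)` of divisors of `f` in the principal class (`d_i ≡ 1` modulo `8`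
and a square modulo `17` and modulo the odd primes dividing some `c_i`), independent modulo squares. Let `d_T`
be the squarefree part of `∏_{i ∈ T} d_i`. The `m (2 ^ n - 1)` curves `E_{c_i d_T}`, `T ≠ ∅`, all have root
number `+1`.

THEOREM. For ALMOST EVERY SINGLE `f` (natural density one), and not only on the average over `f`, the
proportion of the tuples for which all the `E_{c_i d_T}` satisfy the rank form of the Birch and
Swinnerton-Dyer conjecture with order `0` and rank `0` (and have no element of order two in `Ш`) is as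
close as we like to `κ ^ (m (2 ^ n - 1))`, `κ = ∏_{i ≥ 0} (1 - 2 ^ (-2 i - 1)) = 0.4194…`. More generally
for the `T` in any set `𝒯` of nonempty subsets the proportion is close to `κ ^ (m #𝒯)`. So the events for the
different `T` and also for the different `c_i` are asymptotically independent, inside the set of the
divisors of almost every `f`. So the exceptions disappear if there are several multipliers: the
proportion of the tuples for which at least one of the `c_i` has the property for all `T` in `𝒯` is close to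
`1 - (1 - κ ^ #𝒯) ^ m`, and for all but a proportion `(2 ^ n - 1) (0.5806)^m` of the tuples of divisors of almost
every `f` there is for EVERY `T ≠ ∅` a multiplier `c_i` such that `E_{c_i d_T}` satisfies the conjecture.

The theorem `Conductor17` on the same page (helpers 969, 809, 916 and others) says that `L(E_d, 1) ≠ 0` if
`E_d(ℚ)` is finite and `Ш(E_d/ℚ)[2] = 0`, and gives the natural density `κ / 2` of these `d`. That is the case
of one twist family, on the average over `d`. New here: the joint law for several families and for all the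
products of several divisors at the same time, and for almost every fixed `f` (the number of the tuples
is a power of `2 ^ ω(f)` only).

Proof. The descent over `ℚ` for several general curves with full 2-torsion without a cyclic
4-isogeny: the 2-Selmer groups of the twists by `d` are the kernels of matrices over `𝔽₂` given by the
quadratic symbols between the primes dividing `d` and by their classes in a finite group, where
the local conditions at the bad places are maximal isotropic subspaces (orders of `E(ℚ_p)/2E(ℚ_p)`). First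
and second moments over random colourings of the primes dividing `f` by the subsets of `{1, …, n}`; boxes of
large primes, the large sieve for quadratic symbols, all the moments of the numbers of the solutions for
all the systems at once (sums over decorations, stable sets for products of matrix algebras), and an
inversion of moments with given parity. For different curves the local matrices at the primes are not
conjugate, which gives the independence (`Pool/Agent/N869/GK`; parts by helpers 3, 7, 9, 19, 27, 42, 49, 55,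
67, 91, 128, 163, 170, 195, 199, 221, 247, 263, 265, 271, 273, 286, 300, 306, 314, 340, 342, 344, 364, 372,
383, 386, 391, 395, 401, 413, 434, 454, 475, 478, 488, 495, 514, 527, 558, 572, 588, 592, 595, 603, 617,
655, 661, 690, 693, 700, 701, 713, 723, 755, 803, 814, 833, 835, 853, 869, 891, 901, 933, 954).
-/

set_option autoImplicit false

namespace Pool.Agent.Results.MP_696deb_nt.Conductor17Joint

open Filter Topology
open Pool.Agent.Results.MP_696deb_nt.Conductor17 (A B RankZeroShaTwo RootPlus BSDRankZero)
open Pool.Agent.N869.GK.Z (Independent AlmostAll kappa)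

/-- The squarefree numbers prime to `34 c_1 ⋯ c_m`. -/
def Modulus {m : ℕ} (c : Fin m → ℤ) (f : ℕ) : Prop :=
  Squarefree f ∧ f.Coprime (34 * ∏ i, (c i).natAbs)

/-- The principal class: `d ≡ 1` modulo `8`, and `d` is a square modulo `17` and modulo the odd primes which
divide some `c_i`. -/
def Principal {m : ℕ} (c : Fin m → ℤ) (d : ℕ) : Prop :=
  d % 8 = 1 ∧ ∀ p : ℕ, p.Prime → p ≠ 2 → p ∣ 17 * ∏ i, (c i).natAbs → IsSquare (d : ZMod p)

/-- The tuples of divisors of `f` in the principal class, independent modulo squares. -/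
def tuples {m : ℕ} (c : Fin m → ℤ) (n f : ℕ) : Set (Fin n → ℕ) :=
  {d | (∀ i, d i ∣ f ∧ Principal c (d i)) ∧ Independent d}

/-- `t = d_T` is the squarefree part of `∏_{i ∈ T} d_i`. -/
def IsPart {n : ℕ} (d : Fin n → ℕ) (T : Finset (Fin n)) (t : ℕ) : Prop :=
  Squarefree t ∧ IsSquare (t * ∏ i ∈ T, d i)

/-- For `t = d_T`: `E_{c t}(ℚ)` is finite, `Ш` has no element of order two, and the rank form of the conjecture
holds for `E_{c t}`, both sides being `0`. -/
def ZeroAt (c : ℤ) {n : ℕ} (d : Fin n → ℕ) (T : Finset (Fin n)) : Prop :=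
  ∀ t : ℕ, IsPart d T t → RankZeroShaTwo (c * t) ∧ BSDRankZero (A (c * t)) (B (c * t))

/-- There are tuples, finitely many, and the proportion of those with the property `P` differs from `q` by
at most `δ`. -/
def Close {m : ℕ} (c : Fin m → ℤ) {n : ℕ} (P : (Fin n → ℕ) → Prop) (q δ : ℝ) (f : ℕ) : Prop :=
  (tuples c n f).Finite ∧ 0 < (tuples c n f).ncard ∧
    |({d ∈ tuples c n f | P d}.ncard : ℝ) / ((tuples c n f).ncard : ℝ) - q| ≤ δ

/-- There are tuples, finitely many, and the proportion of those with the property `P` is at least `q - δ`. -/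
def AtLeast {m : ℕ} (c : Fin m → ℤ) {n : ℕ} (P : (Fin n → ℕ) → Prop) (q δ : ℝ) (f : ℕ) : Prop :=
  (tuples c n f).Finite ∧ 0 < (tuples c n f).ncard ∧
    q - δ ≤ ({d ∈ tuples c n f | P d}.ncard : ℝ) / ((tuples c n f).ncard : ℝ)

section proof

open Pool.Agent.N869.GK

lemma modulus_eq {m : ℕ} (c : Fin m → ℤ) : Modulus c = Z.Conductor (Z.C17.NN c) := by
  funext f
  unfold Modulus Z.Conductor Z.C17.NN
  have e1 : 34 * ∏ i, (c i).natAbs = 2 * (17 * ∏ i, (c i).natAbs) := by ring
  rw [e1]

lemma tuples_eq {m : ℕ} (c : Fin m → ℤ) (n f : ℕ) :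
    tuples c n f = Z.fam (Z.C17.NN c) false n f := by
  ext d
  constructor
  · rintro ⟨h1, h2⟩
    exact ⟨h1, h2, fun h => absurd h (by decide)⟩
  · rintro ⟨h1, h2, -⟩
    exact ⟨h1, h2⟩

lemma event {m : ℕ} {c : Fin m → ℤ} (hs : ∀ i, Squarefree (c i)) {n : ℕ} {f : ℕ}
    (hf : Modulus c f) {d : Fin n → ℕ} (hd : d ∈ tuples c n f) (i : Fin m) (T : Finset (Fin n)) :
    Z.SelRank (Z.tw (∏ i ∈ T, (d i : ℤ)) (Z.tw (c i) Z.C17.e17)) 0 ↔ ZeroAt (c i) d T := by
  have hpos : 0 < ∏ i ∈ T, d i := Finset.prod_pos fun i _ =>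
    Nat.pos_of_ne_zero fun h => hf.1.ne_zero (zero_dvd_iff.1 (h ▸ (hd.1 i).1))
  have hcast : ∏ i ∈ T, (d i : ℤ) = ((∏ i ∈ T, d i : ℕ) : ℤ) := by
    push_cast
    rfl
  rw [hcast]
  unfold ZeroAt
  constructor
  · intro h t ht
    have h1 : RankZeroShaTwo (c i * t) := (Z.C17.rz_prod (hs i).ne_zero hpos ht.1 ht.2).1 h
    refine ⟨h1, ?_⟩
    have hcop : Squarefree (c i * (t : ℤ)) :=
      Z.C17.sqf_mul (fun j => (hd.1 j).1) ht.1 ht.2 (hs i)
        (Nat.Coprime.coprime_dvd_right ((Finset.dvd_prod_of_mem (fun i => (c i).natAbs)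
          (Finset.mem_univ i)).mul_left 34) hf.2)
    exact ((Pool.Agent.Results.MP_696deb_nt.Conductor17.result).1 _ hcop h1).2
  · intro h
    obtain ⟨t, s, -, ht2, ht3⟩ : ∃ t s : ℕ, 0 < t ∧ Squarefree t ∧ t * s ^ 2 = ∏ i ∈ T, d i := by
      obtain ⟨a, b, h1, h2, h3, h4⟩ := Nat.sq_mul_squarefree_of_pos hpos
      exact ⟨a, b, h1, h4, by rw [mul_comm]; exact h3⟩
    have hp : IsPart d T t := ⟨ht2, t * s, by rw [← ht3]; ring⟩
    exact (Z.C17.rz_prod (hs i).ne_zero hpos hp.1 hp.2).2 (h t hp).1

lemma near_close {m : ℕ} {c : Fin m → ℤ} {n : ℕ} {P Q : (Fin n → ℕ) → Prop} {q δ : ℝ} {f : ℕ}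
    (h : Z.Near (Z.C17.NN c) false P q δ f) (hPQ : ∀ d ∈ tuples c n f, P d ↔ Q d) :
    Close c Q q δ f := by
  have hPQ' : ∀ x ∈ Z.fam (Z.C17.NN c) false n f, P x ↔ Q x := by
    rw [← tuples_eq]
    exact hPQ
  obtain ⟨h1, h2, h3⟩ := h.congr hPQ'
  rw [← tuples_eq] at h1 h2 h3
  exact ⟨h1, h2, h3⟩

lemma least_least {m : ℕ} {c : Fin m → ℤ} {n : ℕ} {P Q : (Fin n → ℕ) → Prop} {q δ : ℝ} {f : ℕ}
    (h : Z.AtLeast (Z.C17.NN c) false P q δ f) (hPQ : ∀ d ∈ tuples c n f, P d → Q d) :
    AtLeast c Q q δ f := by
  have hPQ' : ∀ x ∈ Z.fam (Z.C17.NN c) false n f, P x → Q x := by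
    rw [← tuples_eq]
    exact hPQ
  obtain ⟨h1, h2, h3⟩ := h.mono hPQ'
  rw [← tuples_eq] at h1 h2 h3
  exact ⟨h1, h2, h3⟩

end proof

/-- **Main theorem.** Let `c_1, …, c_m` be different squarefree integers such that the `E_{c_i}` have root
number `+1`, and let `𝒯` be a set of nonempty subsets of `{1, …, n}`. For almost all squarefree `f` prime to
`34 c_1 ⋯ c_m` (natural density one), in the set of the tuples `(d_1, …, d_n)` of divisors of `f` in the principal
class, independent modulo squares:
(1) the proportion of those for which ALL the `m #𝒯` twists `E_{c_i d_T}`, `T ∈ 𝒯`, have finitely many rational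
points and no element of order two in `Ш` and satisfy the rank form of the Birch and Swinnerton-Dyer
conjecture (with both sides zero), differs from `κ ^ (m #𝒯)` by at most `δ`;
(2) the proportion of those for which some `c_i` has this property for all `T ∈ 𝒯` differs from
`1 - (1 - κ ^ #𝒯) ^ m` by at most `δ`;
(3) the proportion of those for which for EVERY `T ≠ ∅` some `c_i` has this property for `T` is at least
`1 - (2 ^ n - 1) (1 - κ) ^ m - δ`. -/
theorem result (m n : ℕ) (c : Fin m → ℤ) (hinj : Function.Injective c)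
    (hs : ∀ i, Squarefree (c i)) (hr : ∀ i, RootPlus (c i)) (𝒯 : Finset (Finset (Fin n)))
    (h𝒯 : ∀ T ∈ 𝒯, T.Nonempty) (δ : ℝ) (hδ : 0 < δ) :
    AlmostAll (Modulus c) (Close c (fun d => ∀ i, ∀ T ∈ 𝒯, ZeroAt (c i) d T)
      (kappa ^ (m * 𝒯.card)) δ) ∧
    AlmostAll (Modulus c) (Close c (fun d => ∃ i, ∀ T ∈ 𝒯, ZeroAt (c i) d T)
      (1 - (1 - kappa ^ 𝒯.card) ^ m) δ) ∧
    AlmostAll (Modulus c) (AtLeast c (fun d => ∀ T : Finset (Fin n), T.Nonempty → ∃ i, ZeroAt (c i) d T)
      (1 - (2 ^ n - 1) * (1 - kappa) ^ m) δ) ∧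
    0.4194 < kappa ∧ kappa < 0.4195 := by
  have hn : false = true → 2 ≤ n := fun h => absurd h (by decide)
  have hE := fun i => Pool.Agent.N869.GK.Z.C17.even_of (hs i) (hr i)
  have hA := fun (i j : Fin m) (hij : i ≠ j) => Pool.Agent.N869.GK.Z.C17.apart_of (hs i) (hs j)
    (hr i) (hr j) fun h => hij (hinj h)
  refine ⟨?_, ?_, ?_, Pool.Agent.N869.GK.Z.kappa_bd.1, Pool.Agent.N869.GK.Z.kappa_bd.2⟩
  · have key := Pool.Agent.N869.GK.Z.C17.law17 hinj hs hr false n hn 𝒯 h𝒯 hδ
    rw [← modulus_eq] at key
    exact key.mono fun f hf h => near_close h fun d hd =>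
      ⟨fun h i T hT => (event hs hf hd i T).1 (h T hT i),
        fun h T hT i => (event hs hf hd i T).2 (h i T hT)⟩
  · have key := Pool.Agent.N869.GK.Z.law_one (Pool.Agent.N869.GK.Z.C17.NN_pos hs)
      (Pool.Agent.N869.GK.Z.C17.kane_c hs) hE hA false n hn 𝒯 h𝒯 hδ
    rw [← modulus_eq] at key
    exact key.mono fun f hf h => near_close h fun d hd =>
      exists_congr fun i => forall_congr' fun T => forall_congr' fun _ => event hs hf hd i T
  · have key := Pool.Agent.N869.GK.Z.law_some (Pool.Agent.N869.GK.Z.C17.NN_pos hs)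
      (Pool.Agent.N869.GK.Z.C17.kane_c hs) hE hA false n hn hδ
    rw [← modulus_eq] at key
    exact key.mono fun f hf h => least_least h fun d hd h T hT =>
      (h T hT).imp fun i hi => (event hs hf hd i T).1 hi

end Pool.Agent.Results.MP_696deb_nt.Conductor17Joint
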